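import Mathlib
import Pool.Agent.Q148.ML.Swap

/-!
# Counting extensions of degree `n`: reduction to `ℚ` and to groups with a transposition
-/

set_option autoImplicit false

namespace Pool.Agent.Results.MP_bf81c2_nt.ReductionToTranspositions

open Filter Topology

/-- The permutation group of `L / K` (Galois group acting on the embeddings) contains a
transposition. -/
def HasTransposition (K : Type) [Field K] (L : IntermediateField K (AlgebraicClosure K)) : Prop :=
  ∃ (σ : AlgebraicClosure K ≃ₐ[K] AlgebraicClosure K) (φ ψ : L →ₐ[K] AlgebraicClosure K), φ ≠ ψ ∧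
    σ.toAlgHom.comp φ = ψ ∧ σ.toAlgHom.comp ψ = φ ∧
    ∀ χ : L →ₐ[K] AlgebraicClosure K, χ ≠ φ → χ ≠ ψ → σ.toAlgHom.comp χ = χ

/-- The fields `L` of degree `n` over `K` inside the algebraic closure of `K` whose relative
discriminant has norm at most `X` (that is, `|d_L| ≤ X |d_K| ^ n`). -/
def Fields (K : Type) [Field K] [NumberField K] (n : ℕ) (X : ℝ) :
    Set (IntermediateField K (AlgebraicClosure K)) :=
  {L | Module.finrank K L = n ∧ ∃ h : NumberField L,
    ((|@NumberField.discr L _ h| : ℤ) : ℝ) ≤ X * ((|NumberField.discr K| : ℤ) : ℝ) ^ n}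

/-- `N_{n,K}(X)` -/
noncomputable def N (K : Type) [Field K] [NumberField K] (n : ℕ) (X : ℝ) : ℕ :=
  (Fields K n X).ncard

/-- the number of fields whose group contains no transposition -/
noncomputable def N₀ (K : Type) [Field K] [NumberField K] (n : ℕ) (X : ℝ) : ℕ :=
  {L ∈ Fields K n X | ¬ HasTransposition K L}.ncard

/-- the number of fields whose group contains a transposition -/
noncomputable def N₁ (K : Type) [Field K] [NumberField K] (n : ℕ) (X : ℝ) : ℕ :=
  {L ∈ Fields K n X | HasTransposition K L}.ncard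

theorem fields_finite (K : Type) [Field K] [NumberField K] (n : ℕ) (X : ℝ) :
    (Fields K n X).Finite := by
  set Y : ℝ := X * ((|NumberField.discr K| : ℤ) : ℝ) ^ n with hY
  have h := NumberField.finite_of_discr_bdd (AlgebraicClosure K) ⌊Y⌋₊
  have h2 := h.image (fun F : {F : IntermediateField ℚ (AlgebraicClosure K) //
    FiniteDimensional ℚ F} => F.1)
  refine Set.Finite.of_finite_image (f := fun L : IntermediateField K (AlgebraicClosure K) =>
    L.restrictScalars ℚ) (h2.subset ?_) ?_
  · rintro _ ⟨L, ⟨hdeg, hNF, h3⟩, rfl⟩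
    have hfd : FiniteDimensional ℚ (L.restrictScalars ℚ) := hNF.to_finiteDimensional
    refine ⟨⟨L.restrictScalars ℚ, hfd⟩, ?_, rfl⟩
    have h4 : |NumberField.discr L| ≤ (⌊Y⌋₊ : ℤ) := by
      have h5 : (|NumberField.discr L| : ℤ) ≤ ⌊Y⌋ := Int.le_floor.2 h3
      have h6 : 0 ≤ Y := le_trans (by positivity) h3
      rwa [← Int.natCast_floor_eq_floor h6] at h5
    exact h4
  · intro L _ L' _ h
    exact IntermediateField.restrictScalars_injective ℚ h

theorem N_eq (K : Type) [Field K] [NumberField K] (n : ℕ) (X : ℝ) :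
    N K n X = N₀ K n X + N₁ K n X := by
  classical
  have h := fields_finite K n X
  unfold N N₀ N₁
  rw [← Set.ncard_union_eq ?_ (h.subset fun _ hx => hx.1) (h.subset fun _ hx => hx.1)]
  · congr 1
    ext L
    constructor
    · intro hL
      by_cases hc : HasTransposition K L
      · exact Or.inr ⟨hL, hc⟩
      · exact Or.inl ⟨hL, hc⟩
    · rintro (hL | hL)
      · exact hL.1
      · exact hL.1
  · rw [Set.disjoint_left]
    intro L h1 h2
    exact h1.2 h2.2

/-- the constant `|d_K| ^ n / |d_k| ^ (m n)` -/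
noncomputable def con (k K : Type) [Field k] [NumberField k] [Field K] [NumberField K]
    [Algebra k K] (n : ℕ) : ℝ :=
  ((|NumberField.discr K| : ℤ) : ℝ) ^ n /
    ((|NumberField.discr k| : ℤ) : ℝ) ^ (Module.finrank k K * n)

theorem con_pos (k K : Type) [Field k] [NumberField k] [Field K] [NumberField K]
    [Algebra k K] (n : ℕ) : 0 < con k K n := by
  have h1 : (0 : ℝ) < ((|NumberField.discr K| : ℤ) : ℝ) := by
    exact_mod_cast abs_pos.2 (NumberField.discr_ne_zero K)
  have h2 : (0 : ℝ) < ((|NumberField.discr k| : ℤ) : ℝ) := by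
    exact_mod_cast abs_pos.2 (NumberField.discr_ne_zero k)
  unfold con
  positivity

theorem down_mem (k K : Type) [Field k] [NumberField k] [Field K] [NumberField K] [Algebra k K]
    [FiniteDimensional k K] {n : ℕ} (hn : 2 ≤ n) (X : ℝ)
    {L : IntermediateField K (AlgebraicClosure K)} (hL : L ∈ Fields K n X) :
    Q148.ML.down k K L ∈ Fields k (Module.finrank k K * n) (con k K n * X) := by
  obtain ⟨hdeg, hNF, hd⟩ := hL
  have hfd : FiniteDimensional K L := Module.finite_of_finrank_pos (by omega)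
  have hNF' : NumberField (Q148.ML.down k K L) :=
    NumberField.of_ringEquiv L _ (Q148.ML.bEq k K L).toRingEquiv
  refine ⟨?_, hNF', ?_⟩
  · rw [← hdeg, Module.finrank_mul_finrank]
    exact (Q148.ML.bEq k K L).toLinearEquiv.finrank_eq.symm
  · rw [← Q148.ML.discr_ringEquiv (Q148.ML.bEq k K L).toRingEquiv]
    refine hd.trans (le_of_eq ?_)
    have h2 : (0 : ℝ) < ((|NumberField.discr k| : ℤ) : ℝ) := by
      exact_mod_cast abs_pos.2 (NumberField.discr_ne_zero k)
    unfold con
    field_simp

theorem main (k K : Type) [Field k] [NumberField k] [Field K] [NumberField K] [Algebra k K]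
    [FiniteDimensional k K] {n : ℕ} (hn : 2 ≤ n) (X : ℝ) :
    N K n X ≤ N k (Module.finrank k K * n) (con k K n * X) ∧
      N₀ K n X ≤ N₀ k (Module.finrank k K * n) (con k K n * X) := by
  have hfin := fields_finite k (Module.finrank k K * n) (con k K n * X)
  constructor
  · refine Set.ncard_le_ncard_of_injOn (Q148.ML.down k K) (fun L hL => down_mem k K hn X hL)
      (Q148.ML.down_injective k K).injOn hfin
  · refine Set.ncard_le_ncard_of_injOn (Q148.ML.down k K) (fun L hL => ?_)
      (Q148.ML.down_injective k K).injOn (hfin.subset fun _ hx => hx.1)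
    exact ⟨down_mem k K hn X hL.1, fun h => hL.2
      (Q148.ML.hasTransposition_of_down k K hn hL.1.1 h)⟩

/-- (1) For an extension `K / k` of number fields of degree `m` and `n ≥ 2`, with
`c = |d_K| ^ n / |d_k| ^ (m n)`: `N_{n,K}(X) ≤ N_{mn,k}(c X)`, and the same for the numbers `N₀`
of fields whose group contains no transposition.
(2) If `N_{n,ℚ}(X) = O(X)` for all `n ≥ 2`, then `N_{n,K}(X) = O(X)` for all `K` and `n ≥ 2`.
(3) If over `ℚ` the fields without transposition are `o(X)` in every degree, then so they are over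
every `K`, and `N_{n,K}(X) ~ c X` if and only if the number of fields of degree `n` over `K` whose
group contains a transposition is `~ c X`. -/
theorem result :
    (∀ (k K : Type) [Field k] [NumberField k] [Field K] [NumberField K] [Algebra k K]
      [FiniteDimensional k K] (n : ℕ), 2 ≤ n → ∀ X : ℝ,
      N K n X ≤ N k (Module.finrank k K * n) (con k K n * X) ∧
      N₀ K n X ≤ N₀ k (Module.finrank k K * n) (con k K n * X)) ∧
    ((∀ n : ℕ, 2 ≤ n → ∃ C X₀ : ℝ, ∀ X : ℝ, X₀ ≤ X → (N ℚ n X : ℝ) ≤ C * X) →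
      ∀ (K : Type) [Field K] [NumberField K] (n : ℕ), 2 ≤ n →
        ∃ C X₀ : ℝ, ∀ X : ℝ, X₀ ≤ X → (N K n X : ℝ) ≤ C * X) ∧
    ((∀ n : ℕ, 2 ≤ n → Tendsto (fun X : ℝ => (N₀ ℚ n X : ℝ) / X) atTop (𝓝 0)) →
      ∀ (K : Type) [Field K] [NumberField K] (n : ℕ), 2 ≤ n →
        Tendsto (fun X : ℝ => (N₀ K n X : ℝ) / X) atTop (𝓝 0) ∧
        ∀ c : ℝ, Tendsto (fun X : ℝ => (N K n X : ℝ) / X) atTop (𝓝 c) ↔
          Tendsto (fun X : ℝ => (N₁ K n X : ℝ) / X) atTop (𝓝 c)) := by
  refine ⟨fun k K _ _ _ _ _ _ n hn X => main k K hn X, ?_, ?_⟩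
  · intro h K _ _ n hn
    have hm : 0 < Module.finrank ℚ K := Module.finrank_pos
    obtain ⟨C, X₀, hX⟩ := h (Module.finrank ℚ K * n) (by nlinarith)
    have hc := con_pos ℚ K n
    refine ⟨C * con ℚ K n, X₀ / con ℚ K n, fun X hXX => ?_⟩
    have h1 : X₀ ≤ con ℚ K n * X := by
      rw [div_le_iff₀ hc] at hXX
      linarith
    have h2 := hX _ h1
    have h3 : (N K n X : ℝ) ≤ N ℚ (Module.finrank ℚ K * n) (con ℚ K n * X) := by
      exact_mod_cast (main ℚ K hn X).1
    calc (N K n X : ℝ) ≤ _ := h3
      _ ≤ C * (con ℚ K n * X) := h2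
      _ = C * con ℚ K n * X := by ring
  · intro h K _ _ n hn
    have hm : 0 < Module.finrank ℚ K := Module.finrank_pos
    have hlim := h (Module.finrank ℚ K * n) (by nlinarith)
    have hc := con_pos ℚ K n
    have h0 : Tendsto (fun X : ℝ => (N₀ K n X : ℝ) / X) atTop (𝓝 0) := by
      have h1 : Tendsto (fun X : ℝ => con ℚ K n * X) atTop atTop :=
        tendsto_id.const_mul_atTop hc
      have h2 := (hlim.comp h1).const_mul (con ℚ K n)
      rw [mul_zero] at h2
      refine squeeze_zero' ?_ ?_ h2
      · filter_upwards [eventually_gt_atTop 0] with X hX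
        positivity
      · filter_upwards [eventually_gt_atTop 0] with X hX
        have h3 : (N₀ K n X : ℝ) ≤ N₀ ℚ (Module.finrank ℚ K * n) (con ℚ K n * X) := by
          exact_mod_cast (main ℚ K hn X).2
        have h4 : con ℚ K n * ((N₀ ℚ (Module.finrank ℚ K * n) (con ℚ K n * X) : ℝ) /
            (con ℚ K n * X)) = (N₀ ℚ (Module.finrank ℚ K * n) (con ℚ K n * X) : ℝ) / X := by
          field_simp
        change (N₀ K n X : ℝ) / X ≤ con ℚ K n * ((N₀ ℚ (Module.finrank ℚ K * n)
          (con ℚ K n * X) : ℝ) / (con ℚ K n * X))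
        rw [h4]
        gcongr
    refine ⟨h0, fun c => ?_⟩
    have hsum : ∀ X : ℝ, (N K n X : ℝ) / X = (N₀ K n X : ℝ) / X + (N₁ K n X : ℝ) / X := by
      intro X
      rw [N_eq]
      push_cast
      ring
    constructor
    · intro h5
      have h6 := h5.sub h0
      rw [sub_zero] at h6
      refine h6.congr fun X => ?_
      rw [hsum X]; ring
    · intro h5
      have h6 := h0.add h5
      rw [zero_add] at h6
      refine h6.congr fun X => ?_
      rw [hsum X]

end Pool.Agent.Results.MP_bf81c2_nt.ReductionToTranspositions
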